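import Pool.Agent.H40.ISH.Stmts2

/-! Module ADJ of project ISH, part 2. -/

set_option linter.unusedVariables false

namespace Pool.ISH

open MeasureTheory Filter Topology
open scoped Classical Pointwise

theorem adj_card (B C : Finset Site) :
    (symmDiff B C).card + 2 * (B ∩ C).card = B.card + C.card := by
  have h1 := Finset.card_sdiff_add_card_inter B C
  have h2 := Finset.card_sdiff_add_card_inter C B
  rw [Finset.inter_comm C B] at h2
  have h3 : (symmDiff B C).card = (B \ C).card + (C \ B).card := by
    rw [← Finset.card_union_of_disjoint]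
    · rfl
    · rw [Finset.disjoint_left]
      intro x
      simp only [Finset.mem_sdiff]
      tauto
  omega

theorem adj_cube {N a : ℕ} (s : Bool) (h : a ≤ N) {x : Site} (hx : x ∈ cube (cor N a s) a) :
    x ∈ Vb N ∧ (s = true → (N : ℤ) - a + 1 ≤ x 2) ∧ (s = false → x 2 < -(N : ℤ) + a) := by
  rw [mem_cube] at hx
  have h0 := hx 0
  have h1 := hx 1
  have h2 := hx 2
  have ha : (a : ℤ) ≤ N := by exact_mod_cast h
  cases s with
  | true =>
    simp only [cor, if_true] at h0 h1 h2
    simp only [Matrix.cons_val_zero, Matrix.cons_val_one, Matrix.cons_val] at h0 h1 h2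
    refine ⟨?_, fun _ => h2.1, fun h => by simp at h⟩
    rw [mem_Vb]
    intro i
    fin_cases i
    · change |x 0| ≤ _
      rw [abs_le]
      constructor <;> omega
    · change |x 1| ≤ _
      rw [abs_le]
      constructor <;> omega
    · change |x 2| ≤ _
      rw [abs_le]
      constructor <;> omega
  | false =>
    simp only [cor, Bool.false_eq_true, if_false] at h0 h1 h2
    simp only [Matrix.cons_val_zero, Matrix.cons_val_one, Matrix.cons_val] at h0 h1 h2
    refine ⟨?_, fun h => by simp at h, fun _ => h2.2⟩
    rw [mem_Vb]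
    intro i
    fin_cases i
    · change |x 0| ≤ _
      rw [abs_le]
      constructor <;> omega
    · change |x 1| ≤ _
      rw [abs_le]
      constructor <;> omega
    · change |x 2| ≤ _
      rw [abs_le]
      constructor <;> omega

theorem adj (hI : IVTStmt) : ADJStmt := by
  intro N a n k B hB hk hka ha h
  have haN : a ≤ N := by
    have : (a : ℤ) ≤ N := by linarith
    exact_mod_cast this
  have hseg : ∀ (s : Bool) (j : ℕ), seg (cor N a s) a j ⊆ Vb N := by
    intro s j x hx
    unfold seg at hx
    exact (adj_cube s haN (Finset.mem_filter.1 hx).1).1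
  have habs := abs_le.1 (le_refl |((Sl N k).card : ℤ) - n|)
  have hd1 := adj_card B (Sl N k)
  have hBS : (B.card : ℤ) ≤ (Sl N k).card + (symmDiff B (Sl N k)).card := by
    have : (B ∩ Sl N k).card ≤ (Sl N k).card := Finset.card_le_card Finset.inter_subset_right
    omega
  have hSB : ((Sl N k).card : ℤ) ≤ B.card + (symmDiff B (Sl N k)).card := by
    have : (B ∩ Sl N k).card ≤ B.card := Finset.card_le_card Finset.inter_subset_left
    omega
  have hcc : ∀ s, (cube (cor N a s) a).card = a ^ 3 := fun s => card_cube _ _
  rcases le_total n B.card with hn | hn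
  · -- the cube at the bottom
    have h1 := adj_card B (cube (cor N a false) a)
    rw [hcc] at h1
    have h2 : (cube (cor N a false) a \ B).card ≤ (symmDiff B (Sl N k)).card := by
      refine Finset.card_le_card ?_
      intro x hx
      rw [Finset.mem_sdiff] at hx
      rw [Finset.mem_symmDiff]
      right
      refine ⟨?_, hx.2⟩
      obtain ⟨h3, -, h4⟩ := adj_cube false haN hx.1
      unfold Sl
      rw [Finset.mem_filter]
      refine ⟨h3, ?_⟩
      have := h4 rfl
      have : (a : ℤ) ≤ N := by exact_mod_cast haN
      omega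
    have h3 := Finset.card_sdiff_add_card_inter (cube (cor N a false) a) B
    rw [hcc, Finset.inter_comm] at h3
    have h4 : (symmDiff B (cube (cor N a false) a)).card ≤ n := by
      have ha3 : ((a ^ 3 : ℕ) : ℤ) = (a : ℤ) ^ 3 := by push_cast; ring
      have h5 : ((symmDiff B (cube (cor N a false) a)).card : ℤ) ≤ n := by
        generalize a ^ 3 = q at *
        rw [← ha3] at h
        omega
      exact_mod_cast h5
    obtain ⟨j, hj, hj'⟩ := hI (cor N a false) a B n (Or.inr ⟨h4, hn⟩)
    exact ⟨false, j, hj, hseg _ _, hj'⟩
  · -- the cube at the top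
    have h1 := adj_card B (cube (cor N a true) a)
    rw [hcc] at h1
    have h2 : (B ∩ cube (cor N a true) a).card ≤ (symmDiff B (Sl N k)).card := by
      refine Finset.card_le_card ?_
      intro x hx
      rw [Finset.mem_inter] at hx
      rw [Finset.mem_symmDiff]
      left
      refine ⟨hx.1, ?_⟩
      obtain ⟨h3, h4, -⟩ := adj_cube true haN hx.2
      unfold Sl
      rw [Finset.mem_filter]
      rintro ⟨-, h5⟩
      have := h4 rfl
      omega
    have h4 : n ≤ (symmDiff B (cube (cor N a true) a)).card := by
      have ha3 : ((a ^ 3 : ℕ) : ℤ) = (a : ℤ) ^ 3 := by push_cast; ring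
      have h5 : (n : ℤ) ≤ ((symmDiff B (cube (cor N a true) a)).card : ℤ) := by
        generalize a ^ 3 = q at *
        rw [← ha3] at h
        omega
      exact_mod_cast h5
    obtain ⟨j, hj, hj'⟩ := hI (cor N a true) a B n (Or.inl ⟨hn, h4⟩)
    exact ⟨true, j, hj, hseg _ _, hj'⟩

end Pool.ISH
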