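import Pool.Agent.H40.ISH.Stmts2
import Pool.Agent.H18.ISH.ETA
import Pool.Agent.H22.ISH.FLT

/-! Module FLK of project ISH, part 2. -/

set_option linter.unusedVariables false

namespace Pool.ISH

open MeasureTheory Filter Topology
open scoped Classical Pointwise

theorem flk_ncard {N : ℕ} {F : Finset Site} (hF : F ⊆ Vb N) :
    (bd (F : Set Site)).ncard = ((BV N).filter (fun b => b ∈ bd (F : Set Site))).card := by
  have h : bd (F : Set Site) =
      (((BV N).filter (fun b => b ∈ bd (F : Set Site)) : Finset Bond) : Set Bond) := by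
    ext b
    rw [Finset.coe_filter]
    exact ⟨fun h => ⟨bd_subset_BV hF h, h⟩, fun h => h.2⟩
  rw [← Set.ncard_coe_finset, ← h]

/-- a configuration is determined by the broken bonds in `BV N` -/
theorem flk_unique {N : ℕ} {A B : Finset Site} (hA : A ⊆ Vb N) (hB : B ⊆ Vb N)
    (h : ∀ b ∈ BV N, (b ∈ bd (Pl N A) ↔ b ∈ bd (Pl N B))) : A = B := by
  have hsub : symmDiff A B ⊆ Vb N := symmDiff_subset_Vb hA hB
  have h1 : Pl N B = symmDiff (Pl N A) ((symmDiff A B : Finset Site) : Set Site) := by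
    rw [← Pl_symmDiff hsub, ← symmDiff_assoc, symmDiff_self, bot_symmDiff]
  have h2 : bd ((symmDiff A B : Finset Site) : Set Site) = bd (((∅ : Finset Site)) : Set Site) := by
    rw [Finset.coe_empty, bd_empty]
    ext b
    simp only [Set.mem_empty_iff_false, iff_false]
    intro hb
    have hbV : b ∈ BV N := bd_subset_BV hsub hb
    have h3 := h b hbV
    rw [h1, bd_symmDiff, Set.mem_symmDiff] at h3
    tauto
  have h3 := eq_of_bd_eq h2
  have h4 : symmDiff A B = ⊥ := h3
  exact symmDiff_eq_bot.1 h4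

theorem flk_pr {g s l p : Prop} (h1 : p ↔ g ∨ s ∨ l) (h2 : g → ¬ s) (h3 : l → ¬ s) :
    ((p ∧ ¬ s) ∨ (s ∧ ¬ p)) ↔ g ∨ l := by
  by_cases hs : s
  · have hg : ¬ g := fun h => h2 h hs
    have hl : ¬ l := fun h => h3 h hs
    simp [hs, hg, hl, h1]
  · simp [hs, h1]

theorem flk_pr2 {g l p : Prop} (h1 : p ↔ g ∨ l) (h2 : g → ¬ l) :
    ((p ∧ ¬ g) ∨ (g ∧ ¬ p)) ↔ l := by
  by_cases hg : g
  · have hl : ¬ l := h2 hg
    simp [hg, hl, h1]
  · simp [hg, h1]

theorem flk (hG : GAMStmt) (hK : KOMStmt) (hI : INTStmt) (hS : SQEStmt) : FLKStmt := by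
  intro N
  refine ⟨fun L => if h : ∃ A' : Finset Site, A' ⊆ Vb N ∧
    ∀ b ∈ BV N, (b ∈ bd (Pl N A') ↔ b ∈ L) then h.choose else ∅, ?_⟩
  intro A hA
  obtain ⟨g1, g2, g3, g4⟩ := hG N A
  obtain ⟨k1, k2, k3⟩ := hK N A
  -- small contours
  obtain ⟨F, hF1, hF2, hF3⟩ := eta_aux hK hI hS N A
    ((Ks N A).filter (fun γ => γ.card < Lg N)) (Finset.filter_subset _ _)
  -- large contours
  obtain ⟨W, hW1, hW2, -⟩ := eta_aux hK hI hS N A
    ((Ks N A).filter (fun γ => Lg N ≤ γ.card)) (Finset.filter_subset _ _)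
  have hbroken : ∀ b, b ∈ bd (Pl N A) ↔ b ∈ Gam N A ∨ b ∈ bd (F : Set Site) ∨
      b ∈ bd (W : Set Site) := by
    intro b
    rw [hF2, hW2]
    constructor
    · intro h
      by_cases hg : b ∈ Gam N A
      · exact Or.inl hg
      · obtain ⟨γ, h2, h3⟩ := k3 b h hg
        right
        by_cases h4 : γ.card < Lg N
        · exact Or.inl ⟨γ, Finset.mem_filter.2 ⟨h2, h4⟩, h3⟩
        · exact Or.inr ⟨γ, Finset.mem_filter.2 ⟨h2, by omega⟩, h3⟩
    · rintro (h | ⟨γ, h2, h3⟩ | ⟨γ, h2, h3⟩)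
      · exact g1 h
      · exact (k1 γ (Finset.mem_filter.1 h2).1).2.2.1 h3
      · exact (k1 γ (Finset.mem_filter.1 h2).1).2.2.1 h3
  have hgF : ∀ b, b ∈ Gam N A → b ∉ bd (F : Set Site) := by
    intro b hb
    rw [hF2]
    rintro ⟨γ, h2, h3⟩
    exact (k1 γ (Finset.mem_filter.1 h2).1).2.2.2.1 b h3 hb
  have hgW : ∀ b, b ∈ Gam N A → b ∉ bd (W : Set Site) := by
    intro b hb
    rw [hW2]
    rintro ⟨γ, h2, h3⟩
    exact (k1 γ (Finset.mem_filter.1 h2).1).2.2.2.1 b h3 hb
  have hWF : ∀ b, b ∈ bd (W : Set Site) → b ∉ bd (F : Set Site) := by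
    intro b
    rw [hF2, hW2]
    rintro ⟨γ, h2, h3⟩ ⟨γ', h4, h5⟩
    have h6 := Finset.mem_filter.1 h2
    have h7 := Finset.mem_filter.1 h4
    have hne : γ ≠ γ' := by
      rintro rfl
      omega
    exact Finset.disjoint_left.1 (k2 γ h6.1 γ' h7.1 hne) h3 h5
  have hLam : ∀ b ∈ BV N, (b ∈ Lam N A ↔ b ∈ Gam N A ∨ b ∈ bd (W : Set Site)) := by
    intro b hb
    unfold Lam
    rw [Finset.mem_union, Finset.mem_filter, Finset.mem_biUnion, hW2]
    simp only [id, hb, true_and]
  have hA' : symmDiff A F ⊆ Vb N := symmDiff_subset_Vb hA hF1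
  have hbdA' : ∀ b, b ∈ bd (Pl N (symmDiff A F)) ↔ b ∈ Gam N A ∨ b ∈ bd (W : Set Site) := by
    intro b
    rw [Pl_symmDiff hF1, bd_symmDiff, Set.mem_symmDiff]
    exact flk_pr (hbroken b) (hgF b) (hWF b)
  have hchar : ∀ b ∈ BV N, (b ∈ bd (Pl N (symmDiff A F)) ↔ b ∈ Lam N A) := by
    intro b hb
    rw [hLam b hb, hbdA' b]
  have hex : ∃ A' : Finset Site, A' ⊆ Vb N ∧
      ∀ b ∈ BV N, (b ∈ bd (Pl N A') ↔ b ∈ Lam N A) := ⟨_, hA', hchar⟩
  have hΨ : hex.choose = symmDiff A F := by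
    refine flk_unique hex.choose_spec.1 hA' ?_
    intro b hb
    rw [hex.choose_spec.2 b hb, hchar b hb]
  simp only [dif_pos hex]
  rw [hΨ]
  have hAF : symmDiff A (symmDiff A F) = F := by
    rw [← symmDiff_assoc, symmDiff_self, bot_symmDiff]
  rw [hAF]
  have hlg : (Lam N A).card = lg N A := H22.lam_card hK N A
  have hLV : Lam N A ⊆ BV N := H22.lam_sub N A
  refine ⟨hA', hF3, ?_, ?_, W, hW1, ?_, ?_⟩
  · -- energies
    rw [flk_ncard hF1, ← hlg]
    unfold en
    rw [← Finset.card_union_of_disjoint]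
    · refine Finset.card_le_card ?_
      intro b hb
      rw [Finset.mem_union, Finset.mem_filter] at hb
      rw [Finset.mem_filter, hbroken]
      rcases hb with hb | hb
      · exact ⟨hb.1, Or.inr (Or.inl hb.2)⟩
      · refine ⟨hLV hb, ?_⟩
        rcases (hLam b (hLV hb)).1 hb with h | h
        · exact Or.inl h
        · exact Or.inr (Or.inr h)
    · rw [Finset.disjoint_left]
      intro b hb hb'
      rw [Finset.mem_filter] at hb
      rcases (hLam b hb.1).1 hb' with h | h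
      · exact hgF b h hb.2
      · exact hWF b h hb.2
  · rw [← hlg]
    unfold en
    congr 1
    ext b
    rw [Finset.mem_filter]
    constructor
    · rintro ⟨h1, h2⟩
      exact (hchar b h1).1 h2
    · intro h
      exact ⟨hLV h, (hchar b (hLV h)).2 h⟩
  · -- the set `W`
    set D : Finset Site := (Vb N).filter (fun x => x ∈ symmDiff (Pl N (symmDiff A F)) (Dp N A))
      with hD
    have hDc : (D : Set Site) = symmDiff (Pl N (symmDiff A F)) (Dp N A) := by
      ext x
      rw [hD, Finset.coe_filter]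
      refine ⟨fun h => h.2, fun h => ⟨?_, h⟩⟩
      by_contra hx
      rw [Set.mem_symmDiff] at h
      have h1 := g3 x hx
      have h2 : x ∈ Pl N (symmDiff A F) ↔ x 2 ≤ 0 := by
        simp only [Pl, Set.mem_ofPred_eq]
        simp [hx]
      rw [h1, h2] at h
      rcases h with h | h
      · exact h.2 h.1
      · exact h.2 h.1
    have hDW : D = W := by
      apply eq_of_bd_eq
      rw [hDc, bd_symmDiff, g2]
      ext b
      rw [Set.mem_symmDiff]
      exact flk_pr2 (hbdA' b) (hgW b)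
    rw [← hDW, hDc]
    rw [symmDiff_comm (Pl N (symmDiff A F)) (Dp N A), ← symmDiff_assoc, symmDiff_self,
      bot_symmDiff]
  · rw [flk_ncard hW1, ← hlg]
    unfold Ec
    rw [g2, ← Finset.card_union_of_disjoint]
    · congr 1
      ext b
      rw [Finset.mem_union, Finset.mem_filter, Finset.mem_filter]
      constructor
      · rintro (h | h)
        · exact (hLam b h.1).2 (Or.inr h.2)
        · exact (hLam b h.1).2 (Or.inl h.2)
      · intro h
        rcases (hLam b (hLV h)).1 h with h1 | h1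
        · exact Or.inr ⟨hLV h, h1⟩
        · exact Or.inl ⟨hLV h, h1⟩
    · rw [Finset.disjoint_left]
      intro b hb hb'
      rw [Finset.mem_filter] at hb hb'
      exact hgW b hb'.2 hb.2

end Pool.ISH
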