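import Pool.Agent.H40.ISH.Stmts2

/-! Module HDU of project ISH, part 2. -/

set_option linter.unusedVariables false

namespace Pool.ISH

open MeasureTheory Filter Topology
open scoped Classical Pointwise

theorem hdu_slab {u v : ℝ} (h : u ≤ v) :
    volume {y : E3 | y ∈ Qc ∧ u ≤ y 2 ∧ y 2 ≤ v} ≤ ENNReal.ofReal (4 * (v - u)) := by
  have h1 : {y : E3 | y ∈ Qc ∧ u ≤ y 2 ∧ y 2 ≤ v} ⊆
      (@WithLp.ofLp 2 (Fin 3 → ℝ)) ⁻¹' (Set.Icc ![-1, -1, u] ![1, 1, v]) := by
    rintro y ⟨hy, h2, h3⟩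
    rw [Set.mem_preimage, Set.mem_Icc, Pi.le_def, Pi.le_def]
    have e0 := abs_le.1 (hy 0)
    have e1 := abs_le.1 (hy 1)
    constructor
    · intro i
      fin_cases i
      · exact e0.1
      · exact e1.1
      · exact h2
    · intro i
      fin_cases i
      · exact e0.2
      · exact e1.2
      · exact h3
  refine (measure_mono h1).trans ?_
  rw [(PiLp.volume_preserving_ofLp (Fin 3)).measure_preimage measurableSet_Icc.nullMeasurableSet,
    Real.volume_Icc_pi, Fin.prod_univ_three]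
  simp only [Matrix.cons_val_zero, Matrix.cons_val_one, Matrix.cons_val]
  rw [← ENNReal.ofReal_mul (by norm_num), ← ENNReal.ofReal_mul (by norm_num)]
  apply ENNReal.ofReal_le_ofReal
  apply le_of_eq
  ring

theorem hdu_vdist (N : ℕ) (A : Finset Site) (b c : ℝ) :
    vdist N A (Kb c) ≤ vdist N A (Kb b) + ENNReal.ofReal (|b - c| / 2) := by
  unfold vdist
  have h1 : {y : E3 | y ∈ Qc ∧ ¬ (y ∈ region N A ↔ y ∈ Kb c)} ⊆
      {y : E3 | y ∈ Qc ∧ ¬ (y ∈ region N A ↔ y ∈ Kb b)} ∪
      {y : E3 | y ∈ Qc ∧ min b c / 8 ≤ y 2 ∧ y 2 ≤ max b c / 8} := by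
    rintro y ⟨hy, hne⟩
    by_cases h : (y ∈ region N A ↔ y ∈ Kb b)
    · right
      rw [h] at hne
      simp only [Kb, Set.mem_ofPred_eq] at hne
      refine ⟨hy, ?_, ?_⟩
      · by_contra h2
        push Not at h2
        apply hne
        have e1 := min_le_left b c
        have e2 := min_le_right b c
        constructor
        · intro _
          linarith
        · intro _
          linarith
      · by_contra h2
        push Not at h2
        apply hne
        have e1 := le_max_left b c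
        have e2 := le_max_right b c
        constructor
        · intro _
          linarith
        · intro _
          linarith
    · left
      exact ⟨hy, h⟩
  refine (measure_mono h1).trans ((measure_union_le _ _).trans ?_)
  gcongr
  refine (hdu_slab (by linarith [min_le_max (a := b) (b := c)])).trans ?_
  apply ENNReal.ofReal_le_ofReal
  have := max_sub_min_eq_abs' b c
  linarith

theorem hdu_dist (y : E3) (c : ℝ) : dist y (!₂[y 0, y 1, c] : E3) = |y 2 - c| := by
  rw [EuclideanSpace.dist_eq, Fin.sum_univ_three]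
  have e0 : (!₂[y 0, y 1, c] : E3) 0 = y 0 := rfl
  have e1 : (!₂[y 0, y 1, c] : E3) 1 = y 1 := rfl
  have e2 : (!₂[y 0, y 1, c] : E3) 2 = c := rfl
  rw [e0, e1, e2, dist_self, dist_self, Real.dist_eq]
  norm_num
  rw [Real.sqrt_sq_eq_abs]

theorem hdu_shape {b c : ℝ} (hb : 0 ≤ b) (hb1 : b ≤ 1) (hc : 0 ≤ c) (hc1 : c ≤ 1) {y : E3}
    (hy : y ∈ shape b) : ∃ y' ∈ shape c, dist y y' ≤ |b - c| / 8 := by
  obtain ⟨hQ, h⟩ := hy
  have hQ' : ∀ t : ℝ, |t| ≤ 1 → (!₂[y 0, y 1, t] : E3) ∈ Qc := by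
    intro t ht i
    fin_cases i
    · exact hQ 0
    · exact hQ 1
    · exact ht
  have e0 : ∀ t : ℝ, (!₂[y 0, y 1, t] : E3) 0 = y 0 := fun _ => rfl
  have e1 : ∀ t : ℝ, (!₂[y 0, y 1, t] : E3) 1 = y 1 := fun _ => rfl
  have e2 : ∀ t : ℝ, (!₂[y 0, y 1, t] : E3) 2 = t := fun _ => rfl
  rcases h with h | ⟨h1, h2, h3⟩
  · refine ⟨!₂[y 0, y 1, c / 8], ⟨hQ' _ ?_, Or.inl (e2 _)⟩, ?_⟩
    · rw [abs_le]
      constructor <;> linarith
    · rw [hdu_dist, h, ← sub_div, abs_div]
      norm_num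
  · refine ⟨!₂[y 0, y 1, min (y 2) (c / 8)], ⟨hQ' _ ?_, Or.inr ?_⟩, ?_⟩
    · have q1 : min (y 2) (c / 8) ≤ c / 8 := min_le_right _ _
      have q2 : 0 ≤ min (y 2) (c / 8) := le_min h1 (by linarith)
      rw [abs_le]
      constructor <;> linarith
    · rw [e0, e1, e2]
      exact ⟨le_min h1 (by linarith), min_le_right _ _, h3⟩
    · rw [hdu_dist]
      rcases le_total (y 2) (c / 8) with h4 | h4
      · rw [min_eq_left h4, sub_self, abs_zero]
        positivity
      · rw [min_eq_right h4, abs_of_nonneg (by linarith), le_div_iff₀ (by norm_num)]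
        rw [abs_of_nonneg (by linarith)]
        linarith

theorem hdu (h1 : HD1Stmt) (h2 : HD2Stmt) (hS : SFBStmt) : HDUStmt := by
  intro ε hε δ hδ
  have hmeas : ∀ b, MeasurableSet (Kb b) := by
    intro b
    have : IsClosed (Kb b) := by
      unfold Kb
      exact isClosed_le (by fun_prop) continuous_const
    exact this.measurableSet
  have key : ∃ η : ENNReal, 0 < η ∧ ∃ N₀ : ℕ, ∀ N ≥ N₀, ∀ b ∈ Set.Icc (0 : ℝ) 1, ∀ A ⊆ Vb N,
      Dense δ ((Nat.log 2 N + 1) ^ 6) N A → vdist N A (Kb b) ≤ η →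
        Metric.hausdorffDist ((N : ℝ)⁻¹ • Gamma N A) (shape b) ≤ ε := by
    refine IsCompact.induction_on (isCompact_Icc (a := (0 : ℝ)) (b := 1))
      (p := fun S => ∃ η : ENNReal, 0 < η ∧ ∃ N₀ : ℕ, ∀ N ≥ N₀, ∀ b ∈ S, ∀ A ⊆ Vb N,
      Dense δ ((Nat.log 2 N + 1) ^ 6) N A → vdist N A (Kb b) ≤ η →
        Metric.hausdorffDist ((N : ℝ)⁻¹ • Gamma N A) (shape b) ≤ ε) ?_ ?_ ?_ ?_
    · exact ⟨1, by norm_num, 0, fun N _ b hb => absurd hb (Set.notMem_empty _)⟩
    · rintro S T hST ⟨η, hη, N₀, h⟩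
      exact ⟨η, hη, N₀, fun N hN b hb => h N hN b (hST hb)⟩
    · rintro S T ⟨η, hη, N₀, h⟩ ⟨η', hη', N₀', h'⟩
      refine ⟨min η η', lt_min hη hη', max N₀ N₀', ?_⟩
      intro N hN b hb A hA hD hv
      rcases hb with hb | hb
      · exact h N (le_trans (le_max_left _ _) hN) b hb A hA hD (hv.trans (min_le_left _ _))
      · exact h' N (le_trans (le_max_right _ _) hN) b hb A hA hD (hv.trans (min_le_right _ _))
    · intro c hc
      obtain ⟨η1, hη1, N1, H1⟩ := h1 (Kb c) (hmeas c) (ε / 2) (by linarith)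
      obtain ⟨η2, hη2, N2, H2⟩ := h2 (Kb c) (hmeas c) (ε / 2) δ (by linarith) hδ
      rw [hS c hc.1 hc.2] at H1 H2
      set η0 : ENNReal := min (min η1 η2) 1 with hη0
      have hη0pos : 0 < η0 := lt_min (lt_min hη1 hη2) (by norm_num)
      have hη0top : η0 ≠ ⊤ := ne_top_of_le_ne_top ENNReal.one_ne_top (min_le_right _ _)
      set e : ℝ := η0.toReal with he
      have he0 : 0 < e := ENNReal.toReal_pos hη0pos.ne' hη0top
      have he1 : ENNReal.ofReal e = η0 := ENNReal.ofReal_toReal hη0top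
      set ρ : ℝ := min e (4 * ε) with hρ
      have hρ0 : 0 < ρ := lt_min he0 (by linarith)
      have hρe : ρ ≤ e := min_le_left _ _
      have hρε : ρ ≤ 4 * ε := min_le_right _ _
      refine ⟨Set.Icc 0 1 ∩ Metric.ball c ρ, inter_mem_nhdsWithin _ (Metric.ball_mem_nhds c hρ0),
        ENNReal.ofReal (e / 2), by positivity, max N1 N2, ?_⟩
      intro N hN b hb A hA hD hv
      obtain ⟨hb1, hb2⟩ := hb
      rw [Metric.mem_ball, Real.dist_eq] at hb2
      have hv' : vdist N A (Kb c) ≤ η0 := by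
        refine (hdu_vdist N A b c).trans ?_
        rw [← he1]
        have : ENNReal.ofReal e = ENNReal.ofReal (e / 2) + ENNReal.ofReal (e / 2) := by
          rw [← ENNReal.ofReal_add (by positivity) (by positivity)]
          congr 1
          ring
        rw [this]
        gcongr
        linarith
      have hv1 : vdist N A (Kb c) ≤ η1 := hv'.trans ((min_le_left _ _).trans (min_le_left _ _))
      have hv2 : vdist N A (Kb c) ≤ η2 := hv'.trans ((min_le_left _ _).trans (min_le_right _ _))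
      have G1 := H1 N (le_trans (le_max_left _ _) hN) A hA hv1
      have G2 := H2 N (le_trans (le_max_right _ _) hN) A hA hD hv2
      refine Metric.hausdorffDist_le_of_mem_dist hε.le ?_ ?_
      · intro p hp
        obtain ⟨y, hy, hy2⟩ := G2 p hp
        obtain ⟨y', hy', hy2'⟩ := hdu_shape hc.1 hc.2 hb1.1 hb1.2 hy
        refine ⟨y', hy', (dist_triangle p y y').trans ?_⟩
        rw [abs_sub_comm] at hy2'
        linarith
      · intro y hy
        obtain ⟨y', hy', hy2'⟩ := hdu_shape hb1.1 hb1.2 hc.1 hc.2 hy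
        obtain ⟨p, hp, hp2⟩ := G1 y' hy'
        refine ⟨p, hp, (dist_triangle y y' p).trans ?_⟩
        linarith
  obtain ⟨η, hη, N₀, h⟩ := key
  exact ⟨η, hη, N₀, fun N hN b hb0 hb1 A hA hD hv => h N hN b ⟨hb0, hb1⟩ A hA hD hv⟩

end Pool.ISH
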