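import Pool.Agent.H40.ISH.Stmts2

/-! Module NEB of project ISH, part 2. -/

set_option linter.unusedVariables false

namespace Pool.ISH

open MeasureTheory Filter Topology
open scoped Classical Pointwise

theorem neb_magn {N : ℕ} {A : Finset Site} (hA : A ⊆ Vb N) : magn N A = mg N A := by
  unfold magn mg
  have h1 : ∑ x ∈ Vb N, spin N A x = ∑ x ∈ Vb N, ((if x ∈ A then 2 else 0 : ℤ) - 1) := by
    apply Finset.sum_congr rfl
    intro x hx
    unfold spin
    rw [if_pos hx]
    split_ifs <;> norm_num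
  rw [h1, Finset.sum_sub_distrib, ← Finset.sum_filter, Finset.sum_const, Finset.sum_const]
  have h2 : (Vb N).filter (fun x => x ∈ A) = A := by
    ext x
    simp only [Finset.mem_filter]
    exact ⟨fun h => h.2, fun h => ⟨hA h, h⟩⟩
  rw [h2]
  simp only [nsmul_eq_mul]
  ring

theorem neb : NEBStmt := by
  intro N b m hN hb0 hb1 hm
  obtain ⟨⟨A, hA, hAm⟩, hmin⟩ := hm
  have hN1 : (1 : ℝ) ≤ N := by exact_mod_cast hN
  set t : ℝ := b * (N : ℝ) ^ 3 with ht
  have ht0 : 0 ≤ t := by positivity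
  have ht1 : t ≤ (N : ℝ) ^ 3 := by
    rw [ht]
    exact mul_le_of_le_one_left (by positivity) hb1
  refine ⟨?_, ⟨A, ?_⟩⟩
  · set u : ℝ := (t + (2 * (N : ℝ) + 1) ^ 3) / 2 with hu
    have hu0 : 0 ≤ u := by positivity
    have hu1 : u ≤ (2 * (N : ℝ) + 1) ^ 3 := by
      rw [hu]
      have : (N : ℝ) ^ 3 ≤ (2 * (N : ℝ) + 1) ^ 3 :=
        pow_le_pow_left₀ (by positivity) (by linarith) 3
      linarith
    obtain ⟨B, hB, hBc⟩ : ∃ B ⊆ Vb N, B.card = ⌊u⌋₊ := by
      apply Finset.exists_subset_card_eq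
      rw [card_Vb]
      have h1 : (⌊u⌋₊ : ℝ) ≤ (((2 * N + 1) ^ 3 : ℕ) : ℝ) := by
        refine (Nat.floor_le hu0).trans ?_
        push_cast
        exact hu1
      exact_mod_cast h1
    have h1 : (magn N B : ℝ) = 2 * (⌊u⌋₊ : ℝ) - (2 * (N : ℝ) + 1) ^ 3 := by
      rw [neb_magn hB]
      unfold mg
      rw [hBc, card_Vb]
      push_cast
      ring
    have h2 := hmin B hB
    have h3 := Nat.floor_le hu0
    have h4 := Nat.lt_floor_add_one u
    refine h2.trans ?_
    rw [h1, abs_le]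
    constructor <;> linarith
  · unfold Cf
    rw [Finset.mem_filter, Finset.mem_powerset]
    exact ⟨hA, by rw [← neb_magn hA, hAm]⟩

end Pool.ISH
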