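import Pool.Agent.H40.ISH.Stmts2

/-! Module NLA of project ISH, part 2. -/

set_option linter.unusedVariables false

namespace Pool.ISH

open MeasureTheory Filter Topology
open scoped Classical Pointwise

theorem nla (hL : LAMStmt) (hC : CLAStmt) : NLAStmt := by
  obtain ⟨C, hC⟩ := hC
  refine ⟨C + 1, ?_⟩
  intro N s hN
  have hsub : ((Vb N).powerset.image (Lam N)).filter (fun L => L.card ≤ s) ⊆
      (Finset.range (s + 1)).biUnion (fun s' => ((BV N).powerset).filter
        (fun G : Finset Bond => G.card = s' ∧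
          ∀ b ∈ G, (∃ c ∈ G, c ∈ NR N ∧ Rch (G : Set Bond) c b) ∨
            Lg N ≤ (G.filter (fun c => Rch (G : Set Bond) b c)).card)) := by
    intro L hL'
    rw [Finset.mem_filter, Finset.mem_image] at hL'
    obtain ⟨⟨A, hA, hAL⟩, hs⟩ := hL'
    obtain ⟨h1, h2, h3⟩ := hL N A hN
    rw [Finset.mem_biUnion]
    refine ⟨L.card, Finset.mem_range.2 (by omega), ?_⟩
    rw [Finset.mem_filter, Finset.mem_powerset, ← hAL]
    exact ⟨h1, rfl, h3⟩
  refine (Finset.card_le_card hsub).trans ?_
  refine Finset.card_biUnion_le.trans ?_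
  have h1 : ∀ s' ∈ Finset.range (s + 1), (((BV N).powerset).filter
        (fun G : Finset Bond => G.card = s' ∧
          ∀ b ∈ G, (∃ c ∈ G, c ∈ NR N ∧ Rch (G : Set Bond) c b) ∨
            Lg N ≤ (G.filter (fun c => Rch (G : Set Bond) b c)).card)).card ≤
      2 ^ (C * (N + s)) := by
    intro s' hs'
    have h2 : s' ≤ s := by
      have := Finset.mem_range.1 hs'
      omega
    exact (hC N s' hN).trans (Nat.pow_le_pow_right (by norm_num)
      (Nat.mul_le_mul_left _ (by omega)))
  refine (Finset.sum_le_sum h1).trans ?_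
  rw [Finset.sum_const, Finset.card_range, smul_eq_mul]
  have h3 : s + 1 ≤ 2 ^ (N + s) := by
    have h4 : s < 2 ^ s := Nat.lt_two_pow_self
    have h5 : 2 ^ s ≤ 2 ^ (N + s) := Nat.pow_le_pow_right (by norm_num) (by omega)
    omega
  calc (s + 1) * 2 ^ (C * (N + s)) ≤ 2 ^ (N + s) * 2 ^ (C * (N + s)) :=
        Nat.mul_le_mul_right _ h3
    _ = 2 ^ ((C + 1) * (N + s)) := by
        rw [← pow_add]
        congr 1
        ring

end Pool.ISH
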