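import Pool.Agent.H40.ISH.Stmts2

/-! Module SFB of project ISH, part 2. -/

set_option linter.unusedVariables false

namespace Pool.ISH

open MeasureTheory Filter Topology
open scoped Classical Pointwise

/-- an open box in space -/
def sfb_box (z : E3) (s : ℝ) : Set E3 := {w | ∀ i, |w i - z i| < s}

theorem sfb_open (z : E3) (s : ℝ) : IsOpen (sfb_box z s) := by
  have : sfb_box z s = ⋂ i : Fin 3, {w : E3 | |w i - z i| < s} := by
    ext w
    simp [sfb_box]
  rw [this]
  refine isOpen_iInter_of_finite ?_
  intro i
  exact isOpen_lt (by fun_prop) continuous_const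

theorem sfb_pos {z : E3} {s : ℝ} (hs : 0 < s) : 0 < (volume : Measure E3) (sfb_box z s) := by
  refine (sfb_open z s).measure_pos _ ⟨z, ?_⟩
  intro i
  simpa using hs

theorem sfb_dist {z w : E3} {r : ℝ} (hr : 0 < r) (h : ∀ i, |w i - z i| < r / 2) :
    dist w z < r := by
  rw [EuclideanSpace.dist_eq]
  rw [show r = Real.sqrt (r ^ 2) by rw [Real.sqrt_sq hr.le]]
  apply Real.sqrt_lt_sqrt (by positivity)
  rw [Fin.sum_univ_three]
  have h1 : ∀ i, dist (w i) (z i) ^ 2 < (r / 2) ^ 2 := by
    intro i
    rw [Real.dist_eq]
    exact pow_lt_pow_left₀ (h i) (abs_nonneg _) (by norm_num)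
  have h2 := h1 0
  have h3 := h1 1
  have h4 := h1 2
  have h5 : 0 < r ^ 2 := by positivity
  nlinarith

theorem sfb_coord {w z : E3} {r : ℝ} (h : w ∈ Metric.ball z r) (i : Fin 3) :
    |w i - z i| < r := by
  rw [Metric.mem_ball] at h
  have h1 := PiLp.dist_apply_le w z i
  rw [Real.dist_eq] at h1
  exact h1.trans_lt h

theorem sfb : SFBStmt := by
  intro b hb0 hb1
  ext y
  simp only [surface, shape, Set.mem_ofPred_eq]
  constructor
  · rintro ⟨hy, hr⟩
    refine ⟨hy, ?_⟩
    by_contra hne
    rw [not_or] at hne
    obtain ⟨hne1, hne2⟩ := hne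
    rcases lt_trichotomy (y 2) (b / 8) with h1 | h1 | h1
    · rcases lt_or_ge (y 2) 0 with h2 | h2
      · obtain ⟨-, h3⟩ := hr (-(y 2)) (by linarith)
        have h4 : Metric.ball y (-(y 2)) \ extend (Kb b) = ∅ := by
          rw [Set.eq_empty_iff_forall_notMem]
          rintro w ⟨hw, hw2⟩
          apply hw2
          have h5 := abs_lt.1 (sfb_coord hw 2)
          simp only [extend, Kb, Set.mem_ofPred_eq]
          by_cases hQ : w ∈ Qc
          · left
            exact ⟨hQ, by linarith⟩
          · right
            exact ⟨hQ, by linarith⟩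
        rw [h4, measure_empty] at h3
        exact lt_irrefl _ h3
      · have h3 : |y 0| < 1 := lt_of_le_of_ne (hy 0) (fun h => hne2 ⟨h2, h1.le, Or.inl h⟩)
        have h4 : |y 1| < 1 := lt_of_le_of_ne (hy 1) (fun h => hne2 ⟨h2, h1.le, Or.inr h⟩)
        set r : ℝ := min (b / 8 - y 2) (min (1 - |y 0|) (1 - |y 1|)) with hrdef
        have hr0 : 0 < r := lt_min (by linarith) (lt_min (by linarith) (by linarith))
        have hr1 : r ≤ b / 8 - y 2 := min_le_left _ _
        have hr2 : r ≤ 1 - |y 0| := (min_le_right _ _).trans (min_le_left _ _)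
        have hr3 : r ≤ 1 - |y 1| := (min_le_right _ _).trans (min_le_right _ _)
        obtain ⟨-, h5⟩ := hr r hr0
        have h6 : Metric.ball y r \ extend (Kb b) = ∅ := by
          rw [Set.eq_empty_iff_forall_notMem]
          rintro w ⟨hw, hw2⟩
          apply hw2
          have e0 := sfb_coord hw 0
          have e1 := sfb_coord hw 1
          have e2 := abs_lt.1 (sfb_coord hw 2)
          simp only [extend, Kb, Set.mem_ofPred_eq]
          left
          refine ⟨?_, by linarith⟩
          intro i
          fin_cases i
          · change |w 0| ≤ 1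
            have := abs_add_le (w 0 - y 0) (y 0)
            rw [sub_add_cancel] at this
            linarith
          · change |w 1| ≤ 1
            have := abs_add_le (w 1 - y 1) (y 1)
            rw [sub_add_cancel] at this
            linarith
          · change |w 2| ≤ 1
            rw [abs_le]
            constructor <;> linarith
        rw [h6, measure_empty] at h5
        exact lt_irrefl _ h5
    · exact hne1 h1
    · obtain ⟨h2, -⟩ := hr (y 2 - b / 8) (by linarith)
      have h4 : Metric.ball y (y 2 - b / 8) ∩ extend (Kb b) = ∅ := by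
        rw [Set.eq_empty_iff_forall_notMem]
        rintro w ⟨hw, hw2⟩
        have h5 := abs_lt.1 (sfb_coord hw 2)
        simp only [extend, Kb, Set.mem_ofPred_eq] at hw2
        rcases hw2 with h6 | h6
        · linarith [h6.2]
        · linarith [h6.2]
      rw [h4, measure_empty] at h2
      exact lt_irrefl _ h2
  · rintro ⟨hy, hs⟩
    refine ⟨hy, ?_⟩
    intro r hr
    have hy2 : 0 ≤ y 2 ∧ y 2 ≤ b / 8 := by
      rcases hs with h | h
      · constructor <;> linarith
      · exact ⟨h.1, h.2.1⟩
    set t : ℝ := min (1 / 2) (r / 4) with ht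
    have ht0 : 0 < t := lt_min (by norm_num) (by linarith)
    have ht1 : t ≤ 1 / 2 := min_le_left _ _
    have ht2 : t ≤ r / 4 := min_le_right _ _
    have hy0 := hy 0
    have hy1 := hy 1
    constructor
    · set z : E3 := !₂[(1 - t) * y 0, (1 - t) * y 1, y 2 - t] with hz
      have z0 : z 0 = (1 - t) * y 0 := rfl
      have z1 : z 1 = (1 - t) * y 1 := rfl
      have z2 : z 2 = y 2 - t := rfl
      refine (sfb_pos (z := z) (s := t / 2) (by linarith)).trans_le (measure_mono ?_)
      intro w hw
      have e0 := hw 0
      have e1 := hw 1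
      have e2 := hw 2
      rw [z0] at e0
      rw [z1] at e1
      rw [z2] at e2
      have key : ∀ u v : ℝ, |v| ≤ 1 → |u - (1 - t) * v| < t / 2 → |u - v| < r / 2 ∧ |u| ≤ 1 := by
        intro u v hv huv
        have hv' := abs_le.1 hv
        have huv' := abs_lt.1 huv
        rw [abs_lt, abs_le]
        refine ⟨⟨?_, ?_⟩, ?_, ?_⟩ <;> nlinarith
      constructor
      · rw [Metric.mem_ball]
        apply sfb_dist hr
        intro i
        fin_cases i
        · exact (key _ _ hy0 e0).1
        · exact (key _ _ hy1 e1).1
        · change |w 2 - y 2| < r / 2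
          rw [abs_lt] at *
          constructor <;> linarith [e2.1, e2.2]
      · simp only [extend, Kb, Set.mem_ofPred_eq]
        left
        rw [abs_lt] at e2
        refine ⟨?_, by linarith [e2.2]⟩
        intro i
        fin_cases i
        · exact (key _ _ hy0 e0).2
        · exact (key _ _ hy1 e1).2
        · change |w 2| ≤ 1
          rw [abs_le]
          constructor <;> linarith [e2.1, e2.2]
    · set z : E3 := !₂[(1 + t) * y 0, (1 + t) * y 1, y 2 + t] with hz
      have z0 : z 0 = (1 + t) * y 0 := rfl
      have z1 : z 1 = (1 + t) * y 1 := rfl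
      have z2 : z 2 = y 2 + t := rfl
      refine (sfb_pos (z := z) (s := t / 2) (by linarith)).trans_le (measure_mono ?_)
      intro w hw
      have e0 := hw 0
      have e1 := hw 1
      have e2 := hw 2
      rw [z0] at e0
      rw [z1] at e1
      rw [z2] at e2
      have key : ∀ u v : ℝ, |v| ≤ 1 → |u - (1 + t) * v| < t / 2 → |u - v| < r / 2 ∧
          (|v| = 1 → 1 < |u|) := by
        intro u v hv huv
        have hv' := abs_le.1 hv
        have huv' := abs_lt.1 huv
        constructor
        · rw [abs_lt]
          constructor <;> nlinarith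
        · intro h1
          rcases abs_eq (by norm_num : (0 : ℝ) ≤ 1) |>.1 h1 with h2 | h2
          · rw [h2] at huv'
            rw [lt_abs]
            left
            linarith [huv'.1]
          · rw [h2] at huv'
            rw [lt_abs]
            right
            linarith [huv'.2]
      constructor
      · rw [Metric.mem_ball]
        apply sfb_dist hr
        intro i
        fin_cases i
        · exact (key _ _ hy0 e0).1
        · exact (key _ _ hy1 e1).1
        · change |w 2 - y 2| < r / 2
          rw [abs_lt] at *
          constructor <;> linarith [e2.1, e2.2]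
      · simp only [extend, Kb, Set.mem_ofPred_eq]
        rw [abs_lt] at e2
        have hw0 : 0 < w 2 := by linarith [e2.1]
        rintro (⟨h1, h2⟩ | ⟨h1, h2⟩)
        · rcases hs with h3 | ⟨h3, h4, h5 | h5⟩
          · linarith [e2.1]
          · have := (key _ _ hy0 e0).2 h5
            linarith [h1 0]
          · have := (key _ _ hy1 e1).2 h5
            linarith [h1 1]
        · linarith

end Pool.ISH
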